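import Pool.Agent.Helper9K9.DM.Stm

/-! Leaf [BLK] (helper94): full blocks. -/

set_option autoImplicit false

universe v

namespace Pool.Agent.Helper9K9.DM

theorem blk : S_BLK.{v} := by
  intro K _ H _ _ _ T hT e f he hf hee hff s hs hne x
  -- a vector and a functional
  obtain ⟨v, hv⟩ : ∃ v, (e * s * f) v ≠ 0 := by
    by_contra h
    push Not at h
    exact hne (LinearMap.ext h)
  obtain ⟨φ0, hφ0⟩ : ∃ φ0 : H →ₗ[K] K, φ0 ((e * s * f) v) = 1 := by
    obtain ⟨φ, hφ⟩ : ∃ φ : Module.Dual K H, φ ((e * s * f) v) ≠ 0 := by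
      by_contra h
      push Not at h
      exact hv ((Module.forall_dual_apply_eq_zero_iff K _).1 h)
    refine ⟨(φ ((e * s * f) v))⁻¹ • φ, ?_⟩
    rw [LinearMap.smul_apply, smul_eq_mul, inv_mul_cancel₀ hφ]
  -- operators of rank one
  have h1 : ∀ (φ : H →ₗ[K] K) (w : H), e * (φ.smulRight w) * f ∈ T := by
    intro φ w
    have h2 : e * (φ.smulRight w) * f = (e * (φ0.smulRight w) * e) * s * (f * (φ.smulRight v) * f) := by
      refine LinearMap.ext fun y => ?_
      have h3 : φ0 (e (s (f v))) = 1 := hφ0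
      simp only [Module.End.mul_apply, LinearMap.smulRight_apply, map_smul, h3, one_smul]
    rw [h2]
    exact hT _ (hT _ (hee _) _ hs) _ (hff _)
  -- all operators
  set b := Module.finBasis K H with hb
  have h4 : x = ∑ i, (b.coord i).smulRight (x (b i)) := by
    refine b.ext fun j => ?_
    rw [LinearMap.sum_apply]
    simp only [LinearMap.smulRight_apply, Module.Basis.coord_apply, Module.Basis.repr_self]
    rw [Finset.sum_eq_single j]
    · simp
    · intro i _ hij
      rw [Finsupp.single_eq_of_ne hij, zero_smul]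
    · intro h
      exact absurd (Finset.mem_univ j) h
  have h5 : e * x * f = ∑ i, e * ((b.coord i).smulRight (x (b i))) * f := by
    conv_lhs => rw [h4]
    rw [Finset.mul_sum, Finset.sum_mul]
  rw [h5]
  exact Submodule.sum_mem _ fun i _ => h1 _ _

end Pool.Agent.Helper9K9.DM
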