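import Pool.Agent.Helper9K9.DM.Stm
import Pool.Agent.Helper9K9.LF.Defs

/-!
# Algebraic operators with the eigenvalues of a CM variety, and algebraic direct factors: definitions
-/

set_option autoImplicit false

open CategoryTheory AlgebraicGeometry Polynomial

universe u v

namespace Pool.Agent.Helper9K9.DM

open Pool.Agent.H914 VarClass Obj WeilCohomology

variable {k : Type u} [Field k] {𝒱 : VarClass k} {ops : CycleOps 𝒱}

/-- The operator `H(X) → H(Y)` given by the cycle `z` on `X × Y`. -/
noncomputable def op (W : WeilCohomology.{u, v} ops) {X Y : 𝒱.Obj} (z : (X.prod Y).Cycles) :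
    W.H X →ₗ[W.K] W.H Y :=
  W.corr (W.cl (X.prod Y) z)

/-- The value of the polynomial `P` with rational coefficients at the operator `t`. -/
noncomputable def valueAt {K : Type v} [Field K] [CharZero K] {H : Type v} [AddCommGroup H]
    [Module K H] (t : Module.End K H) (P : ℚ[X]) : Module.End K H :=
  aeval t (P.map (algebraMap ℚ K))

/-- The cycle `τ` on `V × V` gives an operator on `H^l(V)` like a complex multiplication, where
`m = dim V`:

* the cycle `κ` of codimension `m` is the projector to `H^l(V)`;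
* the cycles `θ` and `θ'` of the codimensions `l` and `2m - l` give isomorphisms from `H^(2m-l)(V)` to
  `H^l(V)` and back, which are inverse to each other;
* on `H^l(V)` the operator `τ` satisfies the equation `P(τ) = 0`, where `P` is squarefree with
  rational coefficients and splits over the coefficient field of the cohomology;
* the adjoint of `τ` with respect to the form `tr (x * θ' y)` on `H^l(V)` is `Q(τ)`, where
  `Q(z)` is the complex conjugate of `z` for each complex root `z` of `P`;
* all operators on `H^l(V)` which commute with `τ` are given by combinations of cycles of codimension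
  `m`, with coefficients in the coefficient field (for example, the eigenvalues of `τ` are simple, so
  that these operators are polynomials in `τ`). -/
structure IsConjOperator (W : WeilCohomology.{u, v} ops) (V : 𝒱.Obj) (l : ℕ)
    (κ τ θ θ' : (V.prod V).Cycles) (P Q : ℚ[X]) : Prop where
  le : l ≤ 2 * V.dim
  cyc_κ : (V.prod V).IsCyc V.dim κ
  cyc_τ : (V.prod V).IsCyc V.dim τ
  cyc_θ : (V.prod V).IsCyc l θ
  cyc_θ' : (V.prod V).IsCyc (2 * V.dim - l) θ'
  proj_same : ∀ x ∈ W.gr V l, op W κ x = x
  proj_ne : ∀ i, i ≠ l → ∀ x ∈ W.gr V i, op W κ x = 0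
  left_inv : ∀ x ∈ W.gr V (2 * V.dim - l), op W θ' (op W θ x) = x
  right_inv : ∀ x ∈ W.gr V l, op W θ (op W θ' x) = x
  conj : ConjPair P Q
  splits : (P.map (algebraMap ℚ W.K)).Splits
  root : ∀ x ∈ W.gr V l, valueAt (op W τ) P x = 0
  adj : ∀ x ∈ W.gr V l, ∀ y ∈ W.gr V l,
    W.tr V (op W τ x * op W θ' y) = W.tr V (x * op W θ' (valueAt (op W τ) Q y))
  comm : ∀ s : W.H V →ₗ[W.K] W.H V, (∀ x ∈ W.gr V l, s x ∈ W.gr V l) →
    (∀ x ∈ W.gr V l, s (op W τ x) = op W τ (s x)) →
    ∃ γ ∈ spanCycles W (V.prod V) V.dim, ∀ x ∈ W.gr V l, s x = W.corr γ x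

/-- `H^l(V)` has an operator like a complex multiplication. -/
def HasConjOperator (W : WeilCohomology.{u, v} ops) (V : 𝒱.Obj) (l : ℕ) : Prop :=
  ∃ (κ τ θ θ' : (V.prod V).Cycles) (P Q : ℚ[X]), IsConjOperator W V l κ τ θ θ' P Q

/-- The cycles `α` on `U × V` and `β` on `V × U`, with rational coefficients, have the codimensions
for which they give operators `H^i(U) → H^l(V)` and `H^l(V) → H^i(U)`. -/
def IsPair (U : 𝒱.Obj) (i : ℕ) (V : 𝒱.Obj) (l : ℕ) (α : (U.prod V).Cycles) (β : (V.prod U).Cycles) :
    Prop :=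
  ∃ a b : ℕ, (U.prod V).IsCyc a α ∧ (V.prod U).IsCyc b β ∧ i + 2 * a = l + 2 * U.dim ∧
    l + 2 * b = i + 2 * V.dim

/-- `H^i(U)` is an algebraic direct factor of `H^l(V)`: there are cycles `α` on `U × V` and `β` on
`V × U` with rational coefficients, of the right codimensions, such that the composition of
`α : H^i(U) → H^l(V)` and `β : H^l(V) → H^i(U)` is the identity. -/
def IsAlgFactor (W : WeilCohomology.{u, v} ops) (U : 𝒱.Obj) (i : ℕ) (V : 𝒱.Obj) (l : ℕ) : Prop :=
  ∃ (α : (U.prod V).Cycles) (β : (V.prod U).Cycles), IsPair U i V l α β ∧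
    ∀ x ∈ W.gr U i, op W β (op W α x) = x

/-- `H^i(U)` is a direct sum of algebraic direct factors of groups `H^l(V)` with an operator like a
complex multiplication: there are finitely many `V s`, `l s` and pairs of cycles `α s`, `β s` with
rational coefficients, such that `α s ∘ β t = 0` on `H^(l t)(V t)` for `s ≠ t` and `∑ β s ∘ α s` is
the identity of `H^i(U)`. -/
def IsSumOfConjFactors (W : WeilCohomology.{u, v} ops) (U : 𝒱.Obj) (i : ℕ) : Prop :=
  ∃ (r : ℕ) (V : Fin r → 𝒱.Obj) (l : Fin r → ℕ) (α : ∀ s, (U.prod (V s)).Cycles)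
    (β : ∀ s, ((V s).prod U).Cycles),
    (∀ s, HasConjOperator W (V s) (l s)) ∧ (∀ s, IsPair U i (V s) (l s) (α s) (β s)) ∧
    (∀ s t, s ≠ t → ∀ x ∈ W.gr (V t) (l t), op W (α s) (op W (β t) x) = 0) ∧
    ∀ x ∈ W.gr U i, ∑ s, op W (β s) (op W (α s) x) = x

/-- `g : V → U` is dominant in the sense that there is a cycle `η` on `V` with rational coefficients
and of the dimension of `U` whose direct image has the class of `U` (if `V` is projective and `g`
surjective, a rational multiple of an intersection of hyperplane sections is such a cycle). -/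
def Dominates (W : WeilCohomology.{u, v} ops) {V U : 𝒱.Obj} (g : V ⟶ U) : Prop :=
  U.dim ≤ V.dim ∧ ∃ η, V.IsCyc (V.dim - U.dim) η ∧ W.cl U (ops.push g η) = 1

end Pool.Agent.Helper9K9.DM
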