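import Pool.Agent.Helper9K9.DM.Stm

set_option autoImplicit false

open Polynomial

universe v

namespace Pool.Agent.Helper9K9.DM

namespace EprL

/-- A polynomial which vanishes on `Z` annihilates `τ`. -/
theorem key {K : Type v} [Field K] {H : Type v} [AddCommGroup H] [Module K H]
    {τ : Module.End K H} {Z : Finset K} (h : aeval τ (∏ a ∈ Z, (X - C a)) = 0) (g : K[X])
    (hg : ∀ a ∈ Z, g.eval a = 0) : aeval τ g = 0 := by
  have hd : (∏ a ∈ Z, (X - C a)) ∣ g := by
    refine Finset.prod_dvd_of_coprime ?_ ?_
    · intro a _ b _ hab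
      exact pairwise_coprime_X_sub_C Function.injective_id hab
    · intro a ha
      exact dvd_iff_isRoot.2 (hg a ha)
  obtain ⟨q, rfl⟩ := hd
  rw [map_mul, h, zero_mul]

end EprL

theorem epr : S_EPR.{v} := by
  intro K _ H _ _ τ Z h
  classical
  have hself : ∀ a ∈ Z, (Lagrange.basis Z id a).eval a = 1 := fun a ha =>
    Lagrange.eval_basis_self (v := id) Function.injective_id.injOn ha
  have hne : ∀ a, ∀ b ∈ Z, a ≠ b → (Lagrange.basis Z id a).eval b = 0 := fun a b hb hab =>
    Lagrange.eval_basis_of_ne (v := id) hab hb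
  have hall : ∀ f : K[X], aeval τ f = ∑ a ∈ Z, f.eval a • aeval τ (Lagrange.basis Z id a) := by
    intro f
    have h1 := EprL.key h (f - ∑ a ∈ Z, C (f.eval a) * Lagrange.basis Z id a) (by
      intro b hb
      rw [eval_sub, eval_finsetSum, Finset.sum_eq_single_of_mem b hb]
      · rw [eval_mul, eval_C, hself b hb, mul_one, sub_self]
      · intro a _ hab
        rw [eval_mul, hne a b hb hab, mul_zero])
    rw [map_sub, sub_eq_zero, map_sum] at h1
    rw [h1]
    refine Finset.sum_congr rfl fun a _ => ?_
    rw [map_mul, aeval_C, ← Algebra.smul_def]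
  refine ⟨fun a => aeval τ (Lagrange.basis Z id a), ?_, ?_, ?_, hall⟩
  · intro a ha
    have h1 := EprL.key h (Lagrange.basis Z id a * Lagrange.basis Z id a - Lagrange.basis Z id a) (by
      intro b hb
      rw [eval_sub, eval_mul]
      by_cases hab : a = b
      · rw [← hab, hself a ha]; ring
      · rw [hne a b hb hab]; ring)
    rw [map_sub, sub_eq_zero, map_mul] at h1
    exact h1
  · intro a ha b hb hab
    have h1 := EprL.key h (Lagrange.basis Z id a * Lagrange.basis Z id b) (by
      intro c hc
      rw [eval_mul]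
      by_cases hac : a = c
      · rw [hne b c hc (fun h2 => hab (hac.trans h2.symm)), mul_zero]
      · rw [hne a c hc hac, zero_mul])
    rw [map_mul] at h1
    exact h1
  · have h1 := hall 1
    rw [map_one] at h1
    rw [h1]
    refine Finset.sum_congr rfl fun a _ => ?_
    rw [eval_one, one_smul]

end Pool.Agent.Helper9K9.DM
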