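import Pool.Agent.Helper9K9.DM.Geo

/-!
# The dual of an algebraic direct factor
-/

set_option autoImplicit false

open CategoryTheory AlgebraicGeometry Polynomial

universe u v

namespace Pool.Agent.Helper9K9.DM

open Pool.Agent.H914 VarClass Obj WeilCohomology Pool.Agent.Helper9K9.LF Pool.Agent.Helper9K9.PH
  Pool.Agent.Helper9K9.DT

variable {k : Type u} [Field k] {𝒱 : VarClass k} {ops : CycleOps 𝒱}
  {W : WeilCohomology.{u, v} ops} {U V X Y Z : 𝒱.Obj}

/-- A correspondence which is injective on the dual of a direct factor of `H^l(V)`. -/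
theorem factor_injective (hLA : S_LA.{v}) {j l : ℕ} (hV : HasConjOperator W V l)
    {α : (U.prod V).Cycles} {β : (V.prod U).Cycles} (hP : IsPair U j V l α β)
    (hβα : ∀ x ∈ W.gr V l, op W β (op W α (op W β x)) = op W β x) (hj : j ≤ 2 * U.dim) :
    ∃ γ ∈ spanCycles W (U.prod U) j,
      (∀ x ∈ W.gr U (2 * U.dim - j), ∃ y ∈ W.gr V l, W.corr γ x = op W β y) ∧
      ∀ x ∈ W.gr U (2 * U.dim - j), W.corr γ x = 0 →
        op W (tsp (ops := ops) α) (op W (tsp (ops := ops) β) x) = 0 := by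
  obtain ⟨κ, τ, θ, θ', P, Q, h⟩ := hV
  obtain ⟨a, b, hα, hβ, ha, hb⟩ := hP
  have hle := h.le
  -- the transposed cycles
  set α' := tsp (ops := ops) α with hα'
  set β' := tsp (ops := ops) β with hβ'
  have hα'c : (V.prod U).IsCyc a α' := tsp_mem hα
  have hβ'c : (U.prod V).IsCyc b β' := tsp_mem hβ
  have mα : ∀ x ∈ W.gr U j, op W α x ∈ W.gr V l := fun x hx => op_mem hα hx ha
  have mβ : ∀ x ∈ W.gr V l, op W β x ∈ W.gr U j := fun x hx => op_mem hβ hx hb
  have mα' : ∀ x ∈ W.gr V (2 * V.dim - l), op W α' x ∈ W.gr U (2 * U.dim - j) :=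
    fun x hx => op_mem hα'c hx (by omega)
  have mβ' : ∀ x ∈ W.gr U (2 * U.dim - j), op W β' x ∈ W.gr V (2 * V.dim - l) :=
    fun x hx => op_mem hβ'c hx (by omega)
  have mθ : ∀ x ∈ W.gr V (2 * V.dim - l), op W θ x ∈ W.gr V l :=
    fun x hx => op_mem h.cyc_θ hx (by omega)
  have mθ' : ∀ x ∈ W.gr V l, op W θ' x ∈ W.gr V (2 * V.dim - l) :=
    fun x hx => op_mem h.cyc_θ' hx (by omega)
  have hβ'β' : ∀ y ∈ W.gr U (2 * U.dim - j), op W β' (op W α' (op W β' y)) = op W β' y := by
    intro y hy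
    rw [← sub_eq_zero]
    refine eq_zero_of_orth (X := V) (i := 2 * V.dim - l) (j := l) (by omega)
      (Submodule.sub_mem _ (mβ' _ (mα' _ (mβ' _ hy))) (mβ' _ hy)) fun x hx => ?_
    rw [mul_sub, map_sub, ← tr_tsp hβ, ← tr_tsp hα, ← tr_tsp hβ, ← tr_tsp hβ, hβα x hx, sub_self]
  -- the operators on `H^l(V)`
  set H := W.gr V l with hH
  have hpcyc : (V.prod V).IsCyc V.dim (compCyc ops β α) := compCyc_mem hβ hα (by omega)
  have h1cyc : (V.prod U).IsCyc (V.dim + a - l) (compCyc ops θ' α') := by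
    refine compCyc_mem h.cyc_θ' hα'c ?_
    omega
  have h2cyc : (V.prod V).IsCyc (2 * V.dim - l) (compCyc ops (compCyc ops θ' α') β') := by
    refine compCyc_mem h1cyc hβ'c ?_
    omega
  have h3cyc : (V.prod V).IsCyc V.dim (compCyc ops (compCyc ops (compCyc ops θ' α') β') θ) := by
    refine compCyc_mem h2cyc h.cyc_θ ?_
    omega
  have hpop : ∀ x, op W (compCyc ops β α) x = op W α (op W β x) := fun x => op_comp hα x
  have hp'op : ∀ x, op W (compCyc ops (compCyc ops (compCyc ops θ' α') β') θ) x =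
      op W θ (op W β' (op W α' (op W θ' x))) := fun x => by
    rw [op_comp h.cyc_θ, op_comp hβ'c, op_comp hα'c]
  have mτ : ∀ x ∈ H, op W τ x ∈ H := fun x hx => op_mem h.cyc_τ hx rfl
  have mp : ∀ x ∈ H, op W (compCyc ops β α) x ∈ H := fun x hx => op_mem hpcyc hx rfl
  have mp' : ∀ x ∈ H, op W (compCyc ops (compCyc ops (compCyc ops θ' α') β') θ) x ∈ H :=
    fun x hx => op_mem h3cyc hx rfl
  set t : Module.End W.K H := (op W τ).restrict mτ with ht
  set p : Module.End W.K H := (op W (compCyc ops β α)).restrict mp with hp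
  set p' : Module.End W.K H :=
    (op W (compCyc ops (compCyc ops (compCyc ops θ' α') β') θ)).restrict mp' with hp'
  have ct : ∀ x : H, (t x : W.H V) = op W τ x := fun x => rfl
  have cp : ∀ x : H, (p x : W.H V) = op W α (op W β x) := fun x => hpop _
  have cp' : ∀ x : H, (p' x : W.H V) = op W θ (op W β' (op W α' (op W θ' x))) :=
    fun x => hp'op _
  set S : Set (Module.End W.K H) := {s | ∃ z, (V.prod V).IsCyc V.dim z ∧
      ∀ x : H, (s x : W.H V) = op W z x} with hS
  have hmulS : ∀ x ∈ S, ∀ y ∈ S, x * y ∈ S := by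
    rintro x ⟨z, hz, h1⟩ y ⟨w, hw, h2⟩
    exact ⟨compCyc ops w z, compCyc_mem hw hz rfl, fun v => by
      rw [Module.End.mul_apply, h1, h2, op_comp hz]⟩
  have h1S : (1 : Module.End W.K H) ∈ S := ⟨κ, h.cyc_κ, fun x => (h.proj_same _ x.2).symm⟩
  have htS : t ∈ S := ⟨τ, h.cyc_τ, fun x => rfl⟩
  have hpS : p ∈ S := ⟨_, hpcyc, fun x => rfl⟩
  have hp'S : p' ∈ S := ⟨_, h3cyc, fun x => rfl⟩
  have hrat : ∀ x ∈ S, ∃ q : ℚ, LinearMap.trace W.K H x = q := by
    rintro s ⟨z, hz, hs⟩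
    exact trace_rat h.cyc_κ hz h.proj_same h.proj_ne s hs
  have hroot : aeval t (P.map (algebraMap ℚ W.K)) = 0 := by
    ext x
    rw [coe_aeval (op W τ) t ct]
    exact h.root x x.2
  have hcomm : ∀ x : Module.End W.K H, x * t = t * x → x ∈ Submodule.span W.K S := by
    intro x hx
    obtain ⟨γ, hγ, h2⟩ := h.comm (H.subtype ∘ₗ x ∘ₗ prL W V l)
      (fun y _ => (x (prL W V l y)).2) (fun y hy => by
        have e1 : prL W V l (op W τ y) = t ⟨y, hy⟩ := by
          have := prL_same (W := W) (V := V) (l := l) ⟨op W τ y, mτ y hy⟩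
          exact this
        have e2 : prL W V l y = ⟨y, hy⟩ := prL_same (W := W) (V := V) (l := l) ⟨y, hy⟩
        rw [LinearMap.comp_apply, LinearMap.comp_apply, LinearMap.comp_apply,
          LinearMap.comp_apply, e1, e2, Submodule.subtype_apply, Submodule.subtype_apply, ← ct]
        have e3 := congrArg (fun F => F (⟨y, hy⟩ : H)) hx
        simp only [Module.End.mul_apply] at e3
        rw [e3])
    obtain ⟨s, hs, h3⟩ := span_of_cycles (l := l) hγ
    have e4 : x = s := by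
      ext y
      rw [h3, ← h2 y y.2, LinearMap.comp_apply, LinearMap.comp_apply, prL_same,
        Submodule.subtype_apply]
    rw [e4]
    exact hs
  have hpp : p * p = p := by
    ext x
    rw [Module.End.mul_apply, cp, cp, hβα _ x.2]
  have hpp' : p' * p' = p' := by
    ext x
    rw [Module.End.mul_apply, cp', cp', h.left_inv _ (mβ' _ (mα' _ (mθ' _ x.2))),
      hβ'β' _ (mα' _ (mθ' _ x.2))]
  -- the form
  set B : H →ₗ[W.K] H →ₗ[W.K] W.K :=
    ((LinearMap.mul W.K (W.H V)).compr₂ (W.tr V)).compl₁₂ H.subtype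
      ((op W θ') ∘ₗ H.subtype) with hB
  have hBa : ∀ x y : H, B x y = W.tr V ((x : W.H V) * op W θ' y) := fun x y => rfl
  have hnd : ∀ x : H, (∀ y, B x y = 0) → x = 0 := by
    intro x hx
    apply Subtype.ext
    refine eq_zero_of_orth (X := V) (i := l) (j := 2 * V.dim - l) (by omega) x.2 fun y hy => ?_
    have e1 := hx ⟨op W θ y, mθ y hy⟩
    rw [hBa, h.left_inv y hy] at e1
    rw [W.comm hy x.2, map_smul, e1, smul_zero]
  have hadjp : Adj B p p' := by
    intro x y
    rw [hBa, hBa, cp, cp', h.left_inv _ (mβ' _ (mα' _ (mθ' _ y.2))), tr_tsp hα, tr_tsp hβ]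
  have hadjt : Adj B t (aeval t (Q.map (algebraMap ℚ W.K))) := by
    intro x y
    rw [hBa, hBa, ct, coe_aeval (op W τ) t ct]
    exact h.adj x x.2 y y.2
  have htrace : ∀ f : W.K[X], LinearMap.trace W.K H
      (p' * aeval (aeval t (Q.map (algebraMap ℚ W.K))) f) =
        LinearMap.trace W.K H (p * aeval t f) := by
    intro f
    have e1 : Adj B (p * aeval t f) (aeval (aeval t (Q.map (algebraMap ℚ W.K))) f * p') :=
      hadjp.mul (adj_aeval' hadjt f)
    rw [Adj.trace_eq hnd e1, LinearMap.trace_mul_comm]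
  obtain ⟨u, hu, hpu, hinj⟩ := hLA W.K H S t p p' P Q hmulS h1S htS hpS hp'S hrat h.conj
    h.splits hroot hcomm hpp hpp' htrace
  obtain ⟨γ, hγ, hγu⟩ := cycles_of_span hu
  -- the correspondence on `U × U`
  have key : ∀ γ ∈ spanCycles W (V.prod V) V.dim, ∃ δ ∈ spanCycles W (U.prod U) j,
      ∀ y, W.corr δ y = op W β (W.corr γ (op W θ (op W β' y))) := by
    intro γ hγ
    refine Submodule.span_induction (p := fun γ _ => ∃ δ ∈ spanCycles W (U.prod U) j,
      ∀ y, W.corr δ y = op W β (W.corr γ (op W θ (op W β' y)))) ?_ ?_ ?_ ?_ hγ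
    · rintro _ ⟨q, hq, z, hz, rfl⟩
      have hq' : q = V.dim := by exact_mod_cast hq
      subst hq'
      have g1 : (U.prod V).IsCyc (b + l - V.dim) (compCyc ops β' θ) := by
        refine compCyc_mem hβ'c h.cyc_θ ?_
        omega
      have g2 : (U.prod V).IsCyc (b + l - V.dim) (compCyc ops (compCyc ops β' θ) z) :=
        compCyc_mem g1 hz rfl
      have g3 : (U.prod U).IsCyc j (compCyc ops (compCyc ops (compCyc ops β' θ) z) β) := by
        refine compCyc_mem g2 hβ ?_
        omega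
      refine ⟨W.cl _ (compCyc ops (compCyc ops (compCyc ops β' θ) z) β),
        Submodule.subset_span ⟨j, rfl, _, g3, rfl⟩, fun y => ?_⟩
      have e1 := op_comp (W := W) (z := compCyc ops (compCyc ops β' θ) z) hβ y
      rw [op_comp hz, op_comp h.cyc_θ] at e1
      exact e1
    · exact ⟨0, Submodule.zero_mem _, fun y => by
        rw [corr_zero, corr_zero, LinearMap.zero_apply, LinearMap.zero_apply, map_zero]⟩
    · rintro c d _ _ ⟨δ, hδ, h1⟩ ⟨δ', hδ', h2⟩
      exact ⟨δ + δ', Submodule.add_mem _ hδ hδ', fun y => by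
        rw [corr_add, corr_add, LinearMap.add_apply, LinearMap.add_apply, h1, h2, map_add]⟩
    · rintro c d _ ⟨δ, hδ, h1⟩
      exact ⟨c • δ, Submodule.smul_mem _ _ hδ, fun y => by
        rw [corr_smul, corr_smul, LinearMap.smul_apply, LinearMap.smul_apply, h1, map_smul]⟩
  obtain ⟨δ, hδ, hδe⟩ := key γ hγ
  have hmem : ∀ x ∈ W.gr U (2 * U.dim - j), op W θ (op W β' x) ∈ H := fun x hx =>
    mθ _ (mβ' _ hx)
  have hval : ∀ x (hx : x ∈ W.gr U (2 * U.dim - j)),
      W.corr δ x = op W β (u ⟨op W θ (op W β' x), hmem x hx⟩) := fun x hx => by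
    rw [hδe, hγu]
  refine ⟨δ, hδ, fun x hx => ⟨_, (u ⟨op W θ (op W β' x), hmem x hx⟩).2, hval x hx⟩,
    fun x hx h0 => ?_⟩
  rw [hval x hx] at h0
  set y : H := ⟨op W θ (op W β' x), hmem x hx⟩ with hy
  have hyv : (y : W.H V) = op W θ (op W β' x) := rfl
  have hy1 : p' y = y := by
    apply Subtype.ext
    rw [cp', hyv, h.left_inv _ (mβ' _ hx), hβ'β' _ hx]
  have hu0 : u y = 0 := by
    apply Subtype.ext
    have e1 : ((p * u) y : W.H V) = 0 := by
      rw [Module.End.mul_apply, cp, h0, map_zero]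
    rw [hpu] at e1
    exact e1
  have hy0 := hinj y hy1 hu0
  have e2 : op W θ (op W β' x) = 0 := by
    rw [← hyv, hy0]; rfl
  have e3 : op W β' x = 0 := by
    rw [← h.left_inv _ (mβ' _ hx), e2, map_zero]
  rw [e3, map_zero]

end Pool.Agent.Helper9K9.DM
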