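import Pool.Agent.Helper9K9.DM.Stm

set_option autoImplicit false

/-!
# [GAL] complex conjugation on the splitting field
-/

namespace Pool.Agent.Helper9K9.DM

open Polynomial

theorem gal : S_GAL := by
  intro P Q hPQ K _ _ hK
  obtain ⟨hsq, hPQ⟩ := hPQ
  classical
  have hP0 : P ≠ 0 := hsq.ne_zero
  let L := P.SplittingField
  let i : L →ₐ[ℚ] K := Polynomial.SplittingField.lift P hK
  let j : L →ₐ[ℚ] ℂ := Polynomial.SplittingField.lift P (IsAlgClosed.splits _)
  let _ : Algebra L ℂ := j.toRingHom.toAlgebra
  have _ : IsScalarTower ℚ L ℂ := IsScalarTower.of_algebraMap_eq' j.comp_algebraMap.symm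
  have _ : IsSplittingField ℚ L P := IsSplittingField.splittingField P
  have _ : Normal ℚ L := Normal.of_isSplittingField P
  let χ : ℂ ≃ₐ[ℚ] ℂ := Complex.conjAe.restrictScalars ℚ
  let γ : L ≃ₐ[ℚ] L := χ.restrictNormal L
  have hγ : ∀ a : L, j (γ a) = (starRingEnd ℂ) (j a) := fun a => χ.restrictNormal_commutes L a
  set PL : L[X] := P.map (algebraMap ℚ L) with hPL
  have hPL0 : PL ≠ 0 := by
    rw [hPL]
    exact (Polynomial.map_ne_zero_iff (algebraMap ℚ L).injective).2 hP0
  have hsep : PL.Separable := (PerfectField.separable_iff_squarefree.2 hsq).map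
  have hnd : PL.roots.Nodup := nodup_roots hsep
  have hspl : PL.Splits := SplittingField.splits P
  have hfac : PL = C PL.leadingCoeff * ∏ a ∈ PL.roots.toFinset, (X - C a) := by
    conv_lhs => rw [hspl.eq_prod_roots]
    rw [Finset.prod_multiset_map_count]
    congr 1
    refine Finset.prod_congr rfl fun a ha => ?_
    rw [Multiset.count_eq_one_of_mem hnd (Multiset.mem_toFinset.1 ha), pow_one]
  have hroot : ∀ a : L, a ∈ PL.roots.toFinset ↔ aeval a P = 0 := by
    intro a
    rw [Multiset.mem_toFinset, mem_roots hPL0, IsRoot.def, hPL, eval_map_algebraMap]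
  refine ⟨L, inferInstance, (i : L →+* K), (γ : L ≃+* L), PL.roots.toFinset,
    i PL.leadingCoeff, ?_, ?_, ?_⟩
  · exact (map_ne_zero_iff i i.toRingHom.injective).2 (leadingCoeff_ne_zero.2 hPL0)
  · have h1 : P.map (algebraMap ℚ K) = PL.map (i : L →+* K) := by
      rw [hPL, Polynomial.map_map]
      congr 1
      exact i.comp_algebraMap.symm
    rw [h1]
    conv_lhs => rw [hfac]
    rw [Polynomial.map_mul, Polynomial.map_C, Polynomial.map_prod, Finset.prod_map]
    congr 1
    refine Finset.prod_congr rfl fun a _ => ?_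
    rw [Polynomial.map_sub, Polynomial.map_X, Polynomial.map_C]
    rfl
  · intro a ha
    have h0 : aeval a P = 0 := (hroot a).1 ha
    refine ⟨(hroot _).2 ?_, ?_⟩
    · have h1 := Polynomial.aeval_algHom_apply (γ : L →ₐ[ℚ] L) a P
      rw [h0, map_zero] at h1
      exact h1
    · have h1 : γ a = aeval a Q := by
        apply j.toRingHom.injective
        have h2 : aeval (j a) P = 0 := by
          rw [Polynomial.aeval_algHom_apply, h0, map_zero]
        have h3 := hPQ (j a) h2
        rw [Polynomial.aeval_algHom_apply] at h3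
        exact (hγ a).trans h3.symm
      change i (γ a) = _
      rw [h1, eval_map_algebraMap]
      exact (Polynomial.aeval_algHom_apply i a Q).symm

end Pool.Agent.Helper9K9.DM
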