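import Pool.Agent.Helper9K9.DM.Defs
import Pool.Agent.Helper9K9.PH.Alg
import Pool.Agent.Helper9K9.DT.Lef

/-!
# Algebraic direct factors: the geometry
-/

set_option autoImplicit false

open CategoryTheory AlgebraicGeometry Polynomial

universe u v

namespace Pool.Agent.Helper9K9.DM

open Pool.Agent.H914 VarClass Obj WeilCohomology Pool.Agent.Helper9K9.LF Pool.Agent.Helper9K9.PH

variable {k : Type u} [Field k] {𝒱 : VarClass k} {ops : CycleOps 𝒱}
  {W : WeilCohomology.{u, v} ops} {U V X Y Z : 𝒱.Obj}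

lemma corr_mem {q i j : ℕ} {c : W.H (X.prod Y)} (hc : c ∈ W.gr _ (2 * q)) {a : W.H X}
    (ha : a ∈ W.gr X i) (h : i + 2 * q = j + 2 * X.dim) : W.corr c a ∈ W.gr Y j := by
  have h1 := W.push_mem (snd X Y) (W.mul_mem hc (W.map_mem (fst X Y) ha))
  rw [corr_apply]
  have e : ((2 * q + i : ℕ) : ℤ) + 2 * ((Y.dim : ℤ) - (X.prod Y).dim) = (j : ℤ) := by
    rw [dim_prod]; push_cast; omega
  rw [e, grZ_natCast] at h1
  exact h1

lemma op_mem {q i j : ℕ} {z : (X.prod Y).Cycles} (hz : (X.prod Y).IsCyc q z) {a : W.H X}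
    (ha : a ∈ W.gr X i) (h : i + 2 * q = j + 2 * X.dim) : op W z a ∈ W.gr Y j :=
  corr_mem (W.cl_mem hz) ha h

lemma op_comp {q : ℕ} {z : (X.prod Y).Cycles} {w : (Y.prod Z).Cycles} (hw : (Y.prod Z).IsCyc q w)
    (x : W.H X) : op W (compCyc ops z w) x = op W w (op W z x) := by
  rw [op, corr_compCyc W hw]
  rfl

/-- The transpose of a cycle. -/
noncomputable def tsp (z : (X.prod Y).Cycles) : (Y.prod X).Cycles := ops.pull (swap Y X) z

lemma tsp_mem {q : ℕ} {z : (X.prod Y).Cycles} (hz : (X.prod Y).IsCyc q z) :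
    (Y.prod X).IsCyc q (tsp (ops := ops) z) := ops.pull_mem _ hz

lemma tr_tsp {q : ℕ} {z : (X.prod Y).Cycles} (hz : (X.prod Y).IsCyc q z) (a : W.H X)
    (b : W.H Y) : W.tr Y (op W z a * b) = W.tr X (a * op W (tsp (ops := ops) z) b) := by
  rw [op, tr_corr_swap (W.cl_mem hz), op, tsp, W.cl_pull]

/-- The projection to `H^l(V)`. -/
noncomputable def prL (W : WeilCohomology.{u, v} ops) (V : 𝒱.Obj) (l : ℕ) :
    W.H V →ₗ[W.K] W.gr V l :=
  (proj (W.isInternal V) l).codRestrict _ (fun a => proj_mem (W.isInternal V) l a)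

lemma prL_same {l : ℕ} (x : W.gr V l) : prL W V l (x : W.H V) = x :=
  Subtype.ext (proj_same (W.isInternal V) x.2)

lemma prL_ne {l i : ℕ} {x : W.H V} (hx : x ∈ W.gr V i) (h : i ≠ l) : prL W V l x = 0 :=
  Subtype.ext (proj_ne (W.isInternal V) hx h)

/-- The trace on `H^l(V)` of an algebraic operator is rational. -/
lemma trace_rat {l : ℕ} {κ z : (V.prod V).Cycles} (hκ : (V.prod V).IsCyc V.dim κ)
    (hz : (V.prod V).IsCyc V.dim z) (h1 : ∀ x ∈ W.gr V l, op W κ x = x)
    (h0 : ∀ i, i ≠ l → ∀ x ∈ W.gr V i, op W κ x = 0) (s : Module.End W.K (W.gr V l))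
    (hs : ∀ x : W.gr V l, (s x : W.H V) = op W z x) :
    ∃ q : ℚ, LinearMap.trace W.K (W.gr V l) s = q := by
  have hw : (V.prod V).IsCyc V.dim (compCyc ops κ z) := compCyc_mem hκ hz rfl
  have e1 : W.corr (W.cl _ (compCyc ops κ z)) =
      (W.gr V l).subtype ∘ₗ s ∘ₗ prL W V l := by
    apply gr_ext (W.isInternal V)
    intro i x hx
    have e2 : W.corr (W.cl _ (compCyc ops κ z)) x = op W z (op W κ x) := op_comp hz x
    rw [e2]
    by_cases hi : i = l
    · subst hi
      rw [h1 x hx]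
      have e3 : prL W V i x = ⟨x, hx⟩ := prL_same ⟨x, hx⟩
      rw [LinearMap.comp_apply, LinearMap.comp_apply, e3, Submodule.subtype_apply, hs]
    · rw [h0 i hi x hx, map_zero, LinearMap.comp_apply, LinearMap.comp_apply, prL_ne hx hi,
        map_zero, map_zero]
  have e4 := trace_par_corr (W := W) (W.cl _ (compCyc ops κ z))
  have e5 : par (W.isInternal V) * W.corr (W.cl _ (compCyc ops κ z)) =
      (par (W.isInternal V) ∘ₗ (W.gr V l).subtype) ∘ₗ (s ∘ₗ prL W V l) := by
    rw [e1]; rfl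
  have e6 : (s ∘ₗ prL W V l) ∘ₗ (par (W.isInternal V) ∘ₗ (W.gr V l).subtype) =
      ((-1 : W.K) ^ l) • s := by
    ext x
    simp only [LinearMap.comp_apply, Submodule.subtype_apply, LinearMap.smul_apply]
    rw [par, scal_apply _ _ x.2, map_smul, map_smul, prL_same]
  rw [e5, LinearMap.trace_comp_comm', e6, map_smul, ← W.cl_pull,
    W.tr_cl (ops.pull_mem _ hw)] at e4
  refine ⟨(-1) ^ l * V.V.degCycle (ops.pull (diag V) (compCyc ops κ z)), ?_⟩
  push_cast
  rw [← e4, smul_eq_mul, ← mul_assoc, ← mul_pow]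
  simp

/-- Operators on `H^l(V)` and on `H(V)`. -/
lemma coe_aeval {l : ℕ} (t : Module.End W.K (W.H V)) (s : Module.End W.K (W.gr V l))
    (hs : ∀ x : W.gr V l, (s x : W.H V) = t x) (f : W.K[X]) (x : W.gr V l) :
    ((aeval s f x : W.gr V l) : W.H V) = aeval t f (x : W.H V) := by
  have hpow : ∀ (n : ℕ) (x : W.gr V l), (((s ^ n) x : W.gr V l) : W.H V) = (t ^ n) x := by
    intro n
    induction n with
    | zero => intro x; rfl
    | succ n ih => intro x; rw [pow_succ, pow_succ, Module.End.mul_apply, Module.End.mul_apply,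
        ih, hs]
  induction f using Polynomial.induction_on' with
  | add p q hp hq =>
    rw [map_add, map_add, LinearMap.add_apply, LinearMap.add_apply, Submodule.coe_add, hp, hq]
  | monomial n a =>
    rw [aeval_monomial, aeval_monomial, Module.End.mul_apply, Module.End.mul_apply,
      Module.algebraMap_end_apply, Module.algebraMap_end_apply, Submodule.coe_smul, hpow]

lemma adj_aeval' {K : Type*} [Field K] {H : Type*} [AddCommGroup H] [Module K H]
    {B : H →ₗ[K] H →ₗ[K] K} {x y : Module.End K H} (h : Adj B x y) (f : K[X]) :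
    Adj B (aeval x f) (aeval y f) := by
  have hpow : ∀ n : ℕ, Adj B (x ^ n) (y ^ n) := by
    intro n
    induction n with
    | zero => simpa using (Adj.one (B := B))
    | succ n ih =>
      have := Adj.mul ih h
      rwa [← pow_succ, ← pow_succ'] at this
  induction f using Polynomial.induction_on' with
  | add p q hp hq => rw [map_add, map_add]; exact hp.add hq
  | monomial n a =>
    rw [aeval_monomial, aeval_monomial, ← Algebra.smul_def, ← Algebra.smul_def]
    exact (hpow n).smul a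

/-- The operators on `H^l(V)` given by combinations of cycles. -/
lemma span_of_cycles {l : ℕ} {γ : W.H (V.prod V)} (hγ : γ ∈ spanCycles W (V.prod V) V.dim) :
    ∃ s ∈ Submodule.span W.K {s : Module.End W.K (W.gr V l) | ∃ z, (V.prod V).IsCyc V.dim z ∧
      ∀ x : W.gr V l, (s x : W.H V) = op W z x}, ∀ x : W.gr V l, (s x : W.H V) = W.corr γ x := by
  refine Submodule.span_induction (p := fun γ _ =>
    ∃ s ∈ Submodule.span W.K {s : Module.End W.K (W.gr V l) | ∃ z, (V.prod V).IsCyc V.dim z ∧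
      ∀ x : W.gr V l, (s x : W.H V) = op W z x}, ∀ x : W.gr V l, (s x : W.H V) = W.corr γ x)
    ?_ ?_ ?_ ?_ hγ
  · rintro _ ⟨p, hp, z, hz, rfl⟩
    have hp' : p = V.dim := by exact_mod_cast hp
    subst hp'
    have hmap : ∀ x ∈ W.gr V l, op W z x ∈ W.gr V l := fun x hx => op_mem hz hx rfl
    exact ⟨(op W z).restrict hmap, Submodule.subset_span ⟨z, hz, fun x => rfl⟩, fun x => rfl⟩
  · exact ⟨0, Submodule.zero_mem _, fun x => by rw [corr_zero]; rfl⟩
  · rintro a b _ _ ⟨s, hs, h1⟩ ⟨s', hs', h2⟩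
    exact ⟨s + s', Submodule.add_mem _ hs hs', fun x => by
      rw [LinearMap.add_apply, Submodule.coe_add, h1, h2, corr_add]; rfl⟩
  · rintro c a _ ⟨s, hs, h1⟩
    exact ⟨c • s, Submodule.smul_mem _ _ hs, fun x => by
      rw [LinearMap.smul_apply, Submodule.coe_smul, h1, corr_smul]; rfl⟩

lemma cycles_of_span {l : ℕ} {s : Module.End W.K (W.gr V l)}
    (hs : s ∈ Submodule.span W.K {s : Module.End W.K (W.gr V l) | ∃ z,
      (V.prod V).IsCyc V.dim z ∧ ∀ x : W.gr V l, (s x : W.H V) = op W z x}) :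
    ∃ γ ∈ spanCycles W (V.prod V) V.dim, ∀ x : W.gr V l, (s x : W.H V) = W.corr γ x := by
  refine Submodule.span_induction (p := fun s _ =>
    ∃ γ ∈ spanCycles W (V.prod V) V.dim, ∀ x : W.gr V l, (s x : W.H V) = W.corr γ x)
    ?_ ?_ ?_ ?_ hs
  · rintro s ⟨z, hz, h⟩
    exact ⟨W.cl _ z, Submodule.subset_span ⟨V.dim, rfl, z, hz, rfl⟩, h⟩
  · exact ⟨0, Submodule.zero_mem _, fun x => by rw [corr_zero]; rfl⟩
  · rintro a b _ _ ⟨γ, hγ, h1⟩ ⟨γ', hγ', h2⟩
    exact ⟨γ + γ', Submodule.add_mem _ hγ hγ', fun x => by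
      rw [LinearMap.add_apply, Submodule.coe_add, h1, h2, corr_add]; rfl⟩
  · rintro c a _ ⟨γ, hγ, h1⟩
    exact ⟨c • γ, Submodule.smul_mem _ _ hγ, fun x => by
      rw [LinearMap.smul_apply, Submodule.coe_smul, h1, corr_smul]; rfl⟩

end Pool.Agent.Helper9K9.DM
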