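import Pool.Agent.Helper9K9.DM.Stm

/-!
# An idempotent and its adjoint are equivalent
-/

set_option autoImplicit false

open Polynomial

universe v

namespace Pool.Agent.Helper9K9.DM

/-- The block step: `E` are orthogonal idempotents with sum `1`, `T` is an algebra of operators which
contains the operators `E a * x * E a`. -/
theorem blocks (hPRM : S_PRM.{v}) (hBLK : S_BLK.{v}) (hNIL : S_NIL.{v}) (hRNK : S_RNK.{v})
    {K : Type v} [Field K] [CharZero K] {H : Type v} [AddCommGroup H] [Module K H]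
    [FiniteDimensional K H] (T : Submodule K (Module.End K H))
    (hT : ∀ x ∈ T, ∀ y ∈ T, x * y ∈ T) {ι : Type} [Fintype ι] (E : ι → Module.End K H)
    (hE : ∀ a, E a * E a = E a) (hEo : ∀ a b, a ≠ b → E a * E b = 0) (hEs : ∑ a, E a = 1)
    (hET : ∀ a x, E a * x * E a ∈ T) (p p' : Module.End K H) (hp : p ∈ T) (hp' : p' ∈ T)
    (hpp : p * p = p) (hpp' : p' * p' = p')
    (htr : ∀ C : Finset ι, ∀ N : ℕ, LinearMap.trace K H (p * ∑ b ∈ C, E b) = N →
      LinearMap.trace K H (p' * ∑ b ∈ C, E b) = N) (hINT : S_INT.{v}) :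
    ∃ u ∈ T, p * u = u ∧ ∀ x, p' x = x → u x = 0 → x = 0 := by
  classical
  set R : ι → ι → Prop := fun a b => ∃ s ∈ T, E a * s * E b ≠ 0 with hR
  have htrans : ∀ a b c, R a b → R b c → R a c := by
    rintro a b c ⟨s, hs, h1⟩ ⟨s', hs', h2⟩
    obtain ⟨X, hX⟩ := hPRM K H _ _ h1 h2
    refine ⟨s * (E b * X * E b) * s', hT _ (hT _ hs _ (hET b X)) _ hs', ?_⟩
    intro h0
    apply hX
    rw [← h0]
    simp only [mul_assoc]
  have hfull : ∀ a b, R a b → ∀ x, E a * x * E b ∈ T := by
    rintro a b ⟨s, hs, h1⟩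
    exact hBLK K H T hT (E a) (E b) (hE a) (hE b) (hET a) (hET b) s hs h1
  have hEmem : ∀ a, E a ∈ T := fun a => by
    have h := hET a 1
    rwa [mul_one, hE] at h
  set Cl : ι → Finset ι := fun a => Finset.univ.filter fun b => R a b ∧ R b a with hCl
  have hmem : ∀ a b, b ∈ Cl a ↔ R a b ∧ R b a := fun a b => by simp [hCl]
  have hCeq : ∀ a b, b ∈ Cl a → Cl b = Cl a := by
    intro a b hb
    obtain ⟨h1, h2⟩ := (hmem a b).1 hb
    ext c
    rw [hmem, hmem]
    exact ⟨fun ⟨h3, h4⟩ => ⟨htrans _ _ _ h1 h3, htrans _ _ _ h4 h2⟩,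
      fun ⟨h3, h4⟩ => ⟨htrans _ _ _ h2 h3, htrans _ _ _ h4 h1⟩⟩
  obtain ⟨z, hz⟩ : ∃ z : Finset ι → Module.End K H, z = fun C => ∑ b ∈ C, E b := ⟨_, rfl⟩
  have hEz : ∀ (C : Finset ι) (a : ι), E a * z C = if a ∈ C then E a else 0 := by
    intro C a
    rw [hz]
    simp only [Finset.mul_sum]
    rw [← Finset.sum_ite_eq C a (fun b => E b)]
    refine Finset.sum_congr rfl fun b _ => ?_
    by_cases h : a = b
    · subst h; simp [hE]
    · simp [h, hEo a b h]
  have hzE : ∀ (C : Finset ι) (a : ι), z C * E a = if a ∈ C then E a else 0 := by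
    intro C a
    rw [hz]
    simp only [Finset.sum_mul]
    rw [← Finset.sum_ite_eq' C a (fun b => E b)]
    refine Finset.sum_congr rfl fun b _ => ?_
    by_cases h : b = a
    · subst h; simp [hE]
    · simp [h, hEo b a h]
  have hzT : ∀ C, z C ∈ T := fun C => by rw [hz]; exact Submodule.sum_mem _ fun b _ => hEmem b
  have hzz : ∀ C, z C * z C = z C := by
    intro C
    have h1 : z C * z C = ∑ b ∈ C, E b * z C := by
      conv_lhs => rw [hz]
      simp only
      rw [Finset.sum_mul, hz]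
    rw [h1, hz]
    refine Finset.sum_congr rfl fun b hb => ?_
    have := hEz C b
    rw [if_pos hb, hz] at this
    exact this
  have hzdis : ∀ C C', Disjoint C C' → z C * z C' = 0 := by
    intro C C' h
    have h1 : z C * z C' = ∑ b ∈ C, E b * z C' := by
      conv_lhs => rw [hz]
      simp only
      rw [Finset.sum_mul, hz]
    rw [h1]
    refine Finset.sum_eq_zero fun b hb => ?_
    rw [hEz, if_neg (Finset.disjoint_left.1 h hb)]
  set 𝒞 : Finset (Finset ι) := Finset.univ.image Cl with h𝒞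
  have hdis : ∀ C ∈ 𝒞, ∀ C' ∈ 𝒞, C ≠ C' → Disjoint C C' := by
    intro C hC C' hC' hne
    obtain ⟨a, -, rfl⟩ := Finset.mem_image.1 hC
    obtain ⟨a', -, rfl⟩ := Finset.mem_image.1 hC'
    rw [Finset.disjoint_left]
    intro b hb hb'
    exact hne ((hCeq _ _ hb).symm.trans (hCeq _ _ hb'))
  -- the key vanishing
  have hkey : ∀ C ∈ 𝒞, ∀ s ∈ T, ∀ s' ∈ T, ∀ b ∈ C, ∀ c, c ∉ C → ∀ b' ∈ C,
      E b * s * E c * (s' * E b') = 0 := by
    intro C hC s hs s' hs' b hb c hc b' hb'
    obtain ⟨a, -, rfl⟩ := Finset.mem_image.1 hC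
    by_contra h
    have h1 : E b * s * E c ≠ 0 := fun h0 => h (by rw [h0, zero_mul])
    have h2 : E c * s' * E b' ≠ 0 := by
      intro h0
      apply h
      have : E b * s * E c * (s' * E b') = E b * s * (E c * s' * E b') := by
        simp only [mul_assoc]
      rw [this, h0, mul_zero]
    have hbc : R b c := ⟨s, hs, h1⟩
    have hcb : R c b' := ⟨s', hs', h2⟩
    obtain ⟨h3, h4⟩ := (hmem a b).1 hb
    obtain ⟨h5, h6⟩ := (hmem a b').1 hb'
    exact hc ((hmem a c).2 ⟨htrans _ _ _ h3 hbc, htrans _ _ _ hcb h6⟩)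
  have hmult : ∀ C ∈ 𝒞, ∀ s ∈ T, ∀ s' ∈ T,
      z C * (s * s') * z C = (z C * s * z C) * (z C * s' * z C) := by
    intro C hC s hs s' hs'
    have h1 : z C + z Cᶜ = 1 := by
      rw [← hEs, hz]
      exact Finset.sum_add_sum_compl C E
    have hA : ∀ (A B : Module.End K H) (D : Finset ι),
        A * z D * B = ∑ c ∈ D, A * E c * B := by
      intro A B D
      rw [hz]
      simp only
      rw [Finset.mul_sum, Finset.sum_mul]
    have h2 : z C * s * z Cᶜ * (s' * z C) = 0 := by
      have e1 : z C * s * z Cᶜ * (s' * z C) = 1 * z C * (s * z Cᶜ * (s' * z C)) := by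
        simp only [mul_assoc, one_mul]
      rw [e1, hA]
      refine Finset.sum_eq_zero fun b hb => ?_
      have e2 : 1 * E b * (s * z Cᶜ * (s' * z C)) = (E b * s) * z Cᶜ * (s' * z C) := by
        simp only [mul_assoc, one_mul]
      rw [e2, hA]
      refine Finset.sum_eq_zero fun c hc => ?_
      have e3 : E b * s * E c * (s' * z C) = (E b * s * E c * s') * z C * 1 := by
        simp only [mul_assoc, mul_one]
      rw [e3, hA]
      refine Finset.sum_eq_zero fun b' hb' => ?_
      have h4 := hkey C hC s hs s' hs' b hb c (Finset.mem_compl.1 hc) b' hb'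
      rw [mul_one, ← h4]
      simp only [mul_assoc]
    calc z C * (s * s') * z C = z C * s * 1 * (s' * z C) := by simp only [mul_assoc, one_mul]
      _ = z C * s * z C * (s' * z C) + z C * s * z Cᶜ * (s' * z C) := by
          rw [← h1]; simp only [mul_add, add_mul]
      _ = z C * s * (z C * z C) * (s' * z C) := by rw [h2, add_zero, hzz]
      _ = (z C * s * z C) * (z C * s' * z C) := by simp only [mul_assoc]
  -- the blocks of the idempotents
  have hex : ∀ C ∈ 𝒞, ∃ x y : Module.End K H, (z C * p * z C) * x * (z C * p' * z C) = x ∧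
      (z C * p' * z C) * y * (z C * p * z C) = y ∧ x * y = z C * p * z C ∧
      y * x = z C * p' * z C := by
    intro C hC
    have hA : (z C * p * z C) * (z C * p * z C) = z C * p * z C := by
      rw [← hmult C hC p hp p hp, hpp]
    have hB : (z C * p' * z C) * (z C * p' * z C) = z C * p' * z C := by
      rw [← hmult C hC p' hp' p' hp', hpp']
    obtain ⟨N, hN⟩ := hINT K H _ hA
    have ht : ∀ s : Module.End K H, LinearMap.trace K H (z C * s * z C) =
        LinearMap.trace K H (s * z C) := by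
      intro s
      rw [mul_assoc, LinearMap.trace_mul_comm, mul_assoc, hzz]
    refine hRNK K H _ _ hA hB ?_
    rw [hN, ht]
    rw [ht] at hN
    have h5 := htr C N (by rw [hz] at hN; exact hN)
    rw [hz]
    exact h5.symm
  choose! x y hx hy hxy hyx using hex
  have hzx : ∀ C ∈ 𝒞, z C * x C * z C = x C := by
    intro C hC
    conv_lhs => rw [← hx C hC]
    conv_rhs => rw [← hx C hC]
    have e1 : z C * (z C * p * z C * x C * (z C * p' * z C)) * z C =
        (z C * z C) * p * z C * x C * (z C * p' * (z C * z C)) := by simp only [mul_assoc]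
    rw [e1, hzz]
  have hzy : ∀ C ∈ 𝒞, z C * y C * z C = y C := by
    intro C hC
    conv_lhs => rw [← hy C hC]
    conv_rhs => rw [← hy C hC]
    have e1 : z C * (z C * p' * z C * y C * (z C * p * z C)) * z C =
        (z C * z C) * p' * z C * y C * (z C * p * (z C * z C)) := by simp only [mul_assoc]
    rw [e1, hzz]
  have hin : ∀ C ∈ 𝒞, ∀ w : Module.End K H, z C * w * z C = w → w ∈ T := by
    intro C hC w hw
    obtain ⟨a, -, rfl⟩ := Finset.mem_image.1 hC
    rw [← hw]
    have e1 : z (Cl a) * w * z (Cl a) = ∑ b ∈ Cl a, ∑ b' ∈ Cl a, E b * w * E b' := by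
      simp only [hz, Finset.sum_mul, Finset.mul_sum]
      try rw [Finset.sum_comm]
    rw [e1]
    refine Submodule.sum_mem _ fun b hb => Submodule.sum_mem _ fun b' hb' => hfull b b' ?_ w
    exact htrans _ _ _ ((hmem a b).1 hb).2 ((hmem a b').1 hb').1
  have hsum : ∀ w : Finset ι → Module.End K H, (∀ C ∈ 𝒞, z C * w C * z C = w C) → ∀ C ∈ 𝒞,
      z C * (∑ C' ∈ 𝒞, w C') * z C = w C := by
    intro w hw C hC
    rw [Finset.mul_sum, Finset.sum_mul, Finset.sum_eq_single C]
    · exact hw C hC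
    · intro C' hC' hne
      have e2 : z C * w C' * z C = (z C * z C') * w C' * z C' * z C := by
        conv_lhs => rw [← hw C' hC']
        simp only [mul_assoc]
      rw [e2, hzdis C C' (hdis C hC C' hC' (Ne.symm hne)), zero_mul, zero_mul, zero_mul]
    · intro h
      exact absurd hC h
  set X := ∑ C ∈ 𝒞, x C with hX
  set Y := ∑ C ∈ 𝒞, y C with hY
  have hXT : X ∈ T := Submodule.sum_mem _ fun C hC => hin C hC _ (hzx C hC)
  have hYT : Y ∈ T := Submodule.sum_mem _ fun C hC => hin C hC _ (hzy C hC)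
  have hzX : ∀ C ∈ 𝒞, z C * X * z C = x C := hsum x hzx
  have hzY : ∀ C ∈ 𝒞, z C * Y * z C = y C := hsum y hzy
  refine ⟨p * X * p', hT _ (hT _ hp _ hXT) _ hp', by rw [← mul_assoc, ← mul_assoc, hpp], ?_⟩
  set n := p' - (p' * (Y * (p * (X * p')))) with hn
  have hnT : n ∈ T := Submodule.sub_mem _ hp'
    (hT _ hp' _ (hT _ hYT _ (hT _ hp _ (hT _ hXT _ hp'))))
  have hzn : ∀ C ∈ 𝒞, z C * n * z C = 0 := by
    intro C hC
    have e1 : z C * (p' * (Y * (p * (X * p')))) * z C =
        (z C * p' * z C) * y C * (z C * p * z C) * x C * (z C * p' * z C) := by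
      rw [hmult C hC p' hp' _ (hT _ hYT _ (hT _ hp _ (hT _ hXT _ hp'))),
        hmult C hC Y hYT _ (hT _ hp _ (hT _ hXT _ hp')), hmult C hC p hp _ (hT _ hXT _ hp'),
        hmult C hC X hXT _ hp', hzX C hC, hzY C hC]
      simp only [mul_assoc]
    rw [hn, mul_sub, sub_mul, e1, hy C hC, hyx C hC, ← hmult C hC p' hp' p' hp', hpp', sub_self]
  obtain ⟨k, hk⟩ := hNIL K H ι E n (fun a b => R a b ∧ ¬ R b a) (fun a h => h.2 h.1)
    (fun a b c h h' => ⟨htrans _ _ _ h.1 h'.1, fun h3 => h'.2 (htrans _ _ _ h3 h.1)⟩) hEs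
    (fun a b h => by
      refine ⟨⟨n, hnT, h⟩, fun h3 => h ?_⟩
      have h4 : R a b := ⟨n, hnT, h⟩
      have ha : a ∈ Cl a := (hmem a a).2 ⟨htrans _ _ _ h4 h3, htrans _ _ _ h4 h3⟩
      have hb : b ∈ Cl a := (hmem a b).2 ⟨h4, h3⟩
      have hC : Cl a ∈ 𝒞 := Finset.mem_image_of_mem _ (Finset.mem_univ a)
      have e1 : E a * z (Cl a) = E a := by rw [hEz, if_pos ha]
      have e2 : z (Cl a) * E b = E b := by rw [hzE, if_pos hb]
      calc E a * n * E b = E a * z (Cl a) * n * (z (Cl a) * E b) := by rw [e1, e2]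
        _ = E a * (z (Cl a) * n * z (Cl a)) * E b := by simp only [mul_assoc]
        _ = 0 := by rw [hzn _ hC, mul_zero, zero_mul])
  intro w hw hu
  have h1 : n w = w := by
    have h2 : (p' * (Y * (p * (X * p')))) w = 0 := by
      have h3 : (p' * (Y * (p * (X * p')))) w = p' (Y ((p * X * p') w)) := rfl
      rw [h3, hu, map_zero, map_zero]
    rw [hn, LinearMap.sub_apply, h2, sub_zero, hw]
  have h2 : ∀ j : ℕ, (n ^ j) w = w := by
    intro j
    induction j with
    | zero => rfl
    | succ j ih => rw [pow_succ, Module.End.mul_apply, h1, ih]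
  rw [← h2 k, hk]
  rfl

theorem la (hPRM : S_PRM.{v}) (hBLK : S_BLK.{v}) (hNIL : S_NIL.{v}) (hRNK : S_RNK.{v})
    (hINT : S_INT.{v}) (hEPR : S_EPR.{v}) (hGAL : S_GAL.{v}) (hTRC : S_TRC.{v}) : S_LA.{v} := by
  intro K _ _ H _ _ _ S τ p p' P Q hmul h1 hτ hp hp' htr hPQ hsplit hPτ hcomm hpp hpp' hadj
  classical
  obtain ⟨L, _, i, γ, Z, c, hc, hP, hγ⟩ := hGAL P Q hPQ K hsplit
  have hprod : aeval τ (∏ a ∈ Z.map ⟨i, i.injective⟩, (X - C a)) = 0 := by
    rw [hP, map_mul, aeval_C] at hPτ
    have h2 := congrArg (fun y => c⁻¹ • y) hPτ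
    simpa [Algebra.algebraMap_eq_smul_one, smul_smul, inv_mul_cancel₀ hc] using h2
  obtain ⟨e, he, heo, hes, hef⟩ := hEPR K H τ _ hprod
  have hT : ∀ x ∈ Submodule.span K S, ∀ y ∈ Submodule.span K S, x * y ∈ Submodule.span K S := by
    intro x hx y hy
    have h2 : x * y ∈ Submodule.span K S * Submodule.span K S := Submodule.mul_mem_mul hx hy
    rw [Submodule.span_mul_span] at h2
    refine Submodule.span_mono ?_ h2
    rintro _ ⟨a, ha, b, hb, rfl⟩
    exact hmul a ha b hb
  have hin : ∀ a ∈ Z, i a ∈ Z.map ⟨i, i.injective⟩ := fun a ha => Finset.mem_map_of_mem _ ha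
  -- the eigenprojectors and `τ`
  have hτe : ∀ a ∈ Z, τ * e (i a) = i a • e (i a) ∧ e (i a) * τ = i a • e (i a) := by
    intro a ha
    have h2 : τ = ∑ b ∈ Z.map ⟨i, i.injective⟩, b • e b := by
      have := hef X
      simpa using this
    constructor
    · rw [h2, Finset.sum_mul, Finset.sum_eq_single (i a)]
      · rw [smul_mul_assoc, he _ (hin a ha)]
      · intro b hb hne
        rw [smul_mul_assoc, heo b hb _ (hin a ha) hne, smul_zero]
      · intro h; exact absurd (hin a ha) h
    · rw [h2, Finset.mul_sum, Finset.sum_eq_single (i a)]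
      · rw [mul_smul_comm, he _ (hin a ha)]
      · intro b hb hne
        rw [mul_smul_comm, heo _ (hin a ha) b hb (Ne.symm hne), smul_zero]
      · intro h; exact absurd (hin a ha) h
  have hpow : ∀ k : ℕ, p * τ ^ k ∈ S := by
    intro k
    have h2 : τ ^ k ∈ S := by
      induction k with
      | zero => simpa using h1
      | succ k ih => rw [pow_succ]; exact hmul _ ih _ hτ
    exact hmul _ hp _ h2
  -- the sum of the projectors of a set of eigenvalues
  have hz : ∀ C' : Finset {a // a ∈ Z}, ∃ F : L[X],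
      aeval τ (F.map i) = ∑ b ∈ C', e (i b.1) ∧
      aeval (aeval τ (Q.map (algebraMap ℚ K))) ((F.map (γ : L →+* L)).map i) =
        ∑ b ∈ C', e (i b.1) := by
    intro C'
    set r : L → L := fun a => if h : a ∈ Z then (if (⟨a, h⟩ : {a // a ∈ Z}) ∈ C' then 1 else 0)
      else 0 with hr
    set F : L[X] := Lagrange.interpolate Z id r with hF
    have hFe : ∀ a ∈ Z, F.eval a = r a := fun a ha => by
      exact Lagrange.eval_interpolate_at_node (s := Z) (v := id) r
        (Function.injective_id.injOn) ha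
    have hsum : ∀ g : K → K, (∀ a ∈ Z, g (i a) = i (r a)) →
        ∑ a ∈ Z.map ⟨i, i.injective⟩, g a • e a = ∑ b ∈ C', e (i b.1) := by
      intro g hg
      rw [Finset.sum_map, ← Finset.sum_coe_sort Z]
      have h3 : ∀ a : {a // a ∈ Z}, g (i a.1) • e (i a.1) =
          if a ∈ C' then e (i a.1) else 0 := by
        intro a
        rw [hg a.1 a.2, hr]
        simp only [a.2, dite_true, Subtype.coe_eta]
        split_ifs <;> simp
      calc ∑ a : {a // a ∈ Z}, g ((⟨i, i.injective⟩ : L ↪ K) a.1) •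
            e ((⟨i, i.injective⟩ : L ↪ K) a.1) = ∑ a : {a // a ∈ Z},
            if a ∈ C' then e (i a.1) else 0 := Finset.sum_congr rfl fun a _ => h3 a
        _ = ∑ b ∈ C', e (i b.1) := by rw [Finset.sum_ite_mem, Finset.univ_inter]
    refine ⟨F, ?_, ?_⟩
    · rw [hef]
      refine hsum _ fun a ha => ?_
      rw [eval_map, eval₂_at_apply, hFe a ha]
    · rw [← aeval_comp, hef]
      refine hsum _ fun a ha => ?_
      rw [eval_comp, ← (hγ a ha).2, eval_map, eval₂_at_apply]
      congr 1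
      have h4 : (F.map (γ : L →+* L)).eval ((γ : L →+* L) a) = (γ : L →+* L) (F.eval a) := by
        rw [eval_map, eval₂_at_apply]
      have h5 : (γ : L →+* L) (r a) = r a := by
        rw [hr]
        dsimp only
        split_ifs <;> simp
      rw [← h5, ← hFe a ha]
      exact h4
  obtain ⟨u, hu, hpu, hinj⟩ := blocks hPRM hBLK hNIL hRNK (Submodule.span K S) hT
    (ι := {a // a ∈ Z}) (fun a => e (i a.1)) (fun a => he _ (hin a.1 a.2))
    (fun a b hab => heo _ (hin a.1 a.2) _ (hin b.1 b.2)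
      fun h => hab (Subtype.ext (i.injective h)))
    (by
      rw [← hes, Finset.sum_map, ← Finset.sum_coe_sort Z]
      rfl)
    (fun a x => hcomm _ (by
      rw [mul_assoc, (hτe a.1 a.2).2, mul_smul_comm, ← mul_assoc, ← mul_assoc,
        (hτe a.1 a.2).1, smul_mul_assoc, smul_mul_assoc])) p p'
    (Submodule.subset_span hp) (Submodule.subset_span hp') hpp hpp'
    (fun C' N hN => by
      obtain ⟨F, hF1, hF2⟩ := hz C'
      rw [← hF1] at hN
      rw [← hF2, hadj]
      exact hTRC K H p τ L i γ (fun k => htr _ (hpow k)) F N hN) hINT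
  exact ⟨u, hu, hpu, hinj⟩

end Pool.Agent.Helper9K9.DM
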