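import Pool.Agent.Helper9K9.DM.Stm

/-!
# Strictly triangular operators are nilpotent

If `e a * n ^ k` is not zero then there are at least `k` elements `b` with `lt a b`.
-/

set_option autoImplicit false

namespace Pool.Agent.Helper9K9.DM

theorem nil : S_NIL := by
  classical
  intro K _ H _ _ ι _ e n lt hirr htr hsum hne
  have key : ∀ k : ℕ, ∀ a : ι, e a * n ^ k ≠ 0 →
      k ≤ (Finset.univ.filter (fun b => lt a b)).card := by
    intro k
    induction k with
    | zero => intro a _; exact Nat.zero_le _
    | succ k ih =>
      intro a ha
      have h1 : e a * n ^ (k + 1) = ∑ b, e a * n * e b * n ^ k := by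
        calc e a * n ^ (k + 1) = e a * n * (∑ b, e b) * n ^ k := by
              rw [hsum, mul_one, pow_succ', mul_assoc]
          _ = ∑ b, e a * n * e b * n ^ k := by rw [Finset.mul_sum, Finset.sum_mul]
      rw [h1] at ha
      obtain ⟨b, _, hb⟩ := Finset.exists_ne_zero_of_sum_ne_zero ha
      have h2 : e a * n * e b ≠ 0 := fun h => hb (by rw [h, zero_mul])
      have h3 : e b * n ^ k ≠ 0 := fun h => hb (by rw [mul_assoc, h, mul_zero])
      have hab := hne a b h2
      have h4 := ih b h3
      have h5 : (Finset.univ.filter (fun c => lt b c)) ⊂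
          (Finset.univ.filter (fun c => lt a c)) := by
        rw [Finset.ssubset_iff_of_subset]
        · exact ⟨b, by simp [hab], by simp [hirr b]⟩
        · intro c hc
          simp only [Finset.mem_filter, Finset.mem_univ, true_and] at hc ⊢
          exact htr a b c hab hc
      have := Finset.card_lt_card h5
      omega
  refine ⟨Fintype.card ι + 1, ?_⟩
  have h0 : ∀ a, e a * n ^ (Fintype.card ι + 1) = 0 := by
    intro a
    by_contra h
    have h1 := key _ a h
    have h2 : (Finset.univ.filter (fun b => lt a b)).card ≤ Fintype.card ι :=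
      Finset.card_le_univ _
    omega
  calc n ^ (Fintype.card ι + 1) = (∑ a, e a) * n ^ (Fintype.card ι + 1) := by
        rw [hsum, one_mul]
    _ = 0 := by
        rw [Finset.sum_mul]
        exact Finset.sum_eq_zero fun a _ => h0 a

end Pool.Agent.Helper9K9.DM
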