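import Pool.Agent.Helper9K9.DM.Stm

set_option autoImplicit false

universe v

namespace Pool.Agent.Helper9K9.DM

namespace RnkL

theorem fix {K : Type v} [Field K] {H : Type v} [AddCommGroup H] [Module K H]
    {A : Module.End K H} (hA : A * A = A) (v : LinearMap.range A) : A (v : H) = v := by
  obtain ⟨v, w, rfl⟩ := v
  exact congrArg (fun f : Module.End K H => f w) hA

theorem trace_eq {K : Type v} [Field K] {H : Type v} [AddCommGroup H] [Module K H]
    [FiniteDimensional K H] {A : Module.End K H} (hA : A * A = A) :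
    LinearMap.trace K H A = Module.finrank K (LinearMap.range A) := by
  have h1 : LinearMap.IsProj (LinearMap.range A) A :=
    ⟨fun x => LinearMap.mem_range_self A x, fun x hx => fix hA ⟨x, hx⟩⟩
  exact h1.trace

end RnkL

theorem rnk : S_RNK.{v} := by
  intro K _ _ H _ _ _ A B hA hB h
  rw [RnkL.trace_eq hA, RnkL.trace_eq hB, Nat.cast_inj] at h
  let g : LinearMap.range A ≃ₗ[K] LinearMap.range B := LinearEquiv.ofFinrankEq _ _ h
  refine ⟨(LinearMap.range A).subtype ∘ₗ (g.symm : _ →ₗ[K] _) ∘ₗ B.rangeRestrict,
    (LinearMap.range B).subtype ∘ₗ (g : _ →ₗ[K] _) ∘ₗ A.rangeRestrict, ?_, ?_, ?_, ?_⟩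
  · ext v
    show A ((g.symm (B.rangeRestrict (B v)) : LinearMap.range A) : H) =
      (g.symm (B.rangeRestrict v) : LinearMap.range A)
    have e : B.rangeRestrict (B v) = B.rangeRestrict v :=
      Subtype.ext (congrArg (fun f : Module.End K H => f v) hB)
    rw [e, RnkL.fix hA]
  · ext v
    show B ((g (A.rangeRestrict (A v)) : LinearMap.range B) : H) =
      (g (A.rangeRestrict v) : LinearMap.range B)
    have e : A.rangeRestrict (A v) = A.rangeRestrict v :=
      Subtype.ext (congrArg (fun f : Module.End K H => f v) hA)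
    rw [e, RnkL.fix hB]
  · ext v
    show ((g.symm (B.rangeRestrict ((g (A.rangeRestrict v) : LinearMap.range B) : H)) :
      LinearMap.range A) : H) = A v
    have e : B.rangeRestrict ((g (A.rangeRestrict v) : LinearMap.range B) : H) =
        g (A.rangeRestrict v) := Subtype.ext (RnkL.fix hB _)
    rw [e, LinearEquiv.symm_apply_apply]
    rfl
  · ext v
    show ((g (A.rangeRestrict ((g.symm (B.rangeRestrict v) : LinearMap.range A) : H)) :
      LinearMap.range B) : H) = B v
    have e : A.rangeRestrict ((g.symm (B.rangeRestrict v) : LinearMap.range A) : H) =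
        g.symm (B.rangeRestrict v) := Subtype.ext (RnkL.fix hA _)
    rw [e, LinearEquiv.apply_symm_apply]
    rfl

end Pool.Agent.Helper9K9.DM
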