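import Pool.Agent.Helper9K9.DM.Stm

/-!
# Traces of polynomials in `τ` and an automorphism of the coefficients

The trace of `p * G(τ)` is `i z` for an element `z` of `L` which is a combination of the coefficients
of `G` with rational coefficients; so conjugation of the coefficients conjugates `z`.
-/

set_option autoImplicit false

open Polynomial

namespace Pool.Agent.Helper9K9.DM

theorem trc : S_TRC := by
  intro K _ _ H _ _ p τ L _ i γ hq F N h
  choose q hq using hq
  have mono : ∀ (k : ℕ) (c : L),
      LinearMap.trace K H (p * aeval τ ((monomial k c).map i)) = i (c * (q k : L)) := by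
    intro k c
    have h1 : p * aeval τ ((monomial k c).map i) = (i c) • (p * τ ^ k) := by
      rw [map_monomial, aeval_monomial, ← Algebra.smul_def, mul_smul_comm]
    rw [h1, map_smul, hq, smul_eq_mul, map_mul, map_ratCast]
  have key : ∀ G : L[X], ∃ z : L, LinearMap.trace K H (p * aeval τ (G.map i)) = i z ∧
      LinearMap.trace K H (p * aeval τ ((G.map (γ : L →+* L)).map i)) = i (γ z) := by
    intro G
    induction G using Polynomial.induction_on' with
    | add f g hf hg =>
      obtain ⟨z, h1, h2⟩ := hf
      obtain ⟨w, h3, h4⟩ := hg
      refine ⟨z + w, ?_, ?_⟩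
      · rw [Polynomial.map_add, map_add, mul_add, map_add, h1, h3, map_add]
      · rw [Polynomial.map_add, Polynomial.map_add, map_add, mul_add, map_add, h2, h4, map_add,
          map_add]
    | monomial k c =>
      refine ⟨c * (q k : L), mono k c, ?_⟩
      have h2 : (monomial k c).map (γ : L →+* L) = monomial k (γ c) := by
        rw [map_monomial]; rfl
      rw [h2, mono, map_mul γ, map_ratCast γ]
  obtain ⟨z, h1, h2⟩ := key F
  have h3 : z = (N : L) := by
    apply i.injective
    rw [← h1, h, map_natCast]
  rw [h2, h3, map_natCast, map_natCast]

end Pool.Agent.Helper9K9.DM
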