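import Pool.Agent.Helper9K9.DM.Fac
import Pool.Agent.Helper9K9.DM.La
import Pool.Agent.Helper9K9.DM.Blk
import Pool.Agent.Helper9K9.DM.Epr
import Pool.Agent.Helper9K9.DM.Gal
import Pool.Agent.Helper9K9.DM.Nil
import Pool.Agent.Helper9K9.DM.Rnk
import Pool.Agent.Helper9K9.DM.Trc
import Pool.Agent.Helper88K9.DM.Prm
import Pool.Agent.Helper9K9.LF.Geo

/-!
# The standard conjecture of Lefschetz type for direct factors of varieties of CM type
-/

set_option autoImplicit false

open CategoryTheory AlgebraicGeometry Polynomial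

universe u v

namespace Pool.Agent.Helper9K9.DM

open Pool.Agent.H914 VarClass Obj WeilCohomology Pool.Agent.Helper9K9.LF Pool.Agent.Helper9K9.PH
  Pool.Agent.Helper9K9.DT

variable {k : Type u} [Field k] {𝒱 : VarClass k} {ops : CycleOps 𝒱}
  {W : WeilCohomology.{u, v} ops} {U V X Y Z : 𝒱.Obj}

theorem la' : S_LA.{v} :=
  la Pool.Agent.Helper88K9.DM.prm blk nil rnk Pool.Agent.Helper88K9.DM.int epr gal trc

/-- the operator of a cycle which is pushed forward from `Z` -/
lemma op_push (f : Z ⟶ X.prod Y) (z : Z.Cycles) (a : W.H X) :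
    op W (ops.push f z) a = W.push (f ≫ snd X Y) (W.cl Z z * W.map (f ≫ fst X Y) a) := by
  rw [op, W.cl_push, corr_apply, ← W.push_mul, ← W.push_comp, W.map_comp]

/-- The cohomology of `U` is a direct factor of the cohomology of `V` if there is a morphism
`g : V → U` and a cycle `η` on `V` with `g_* η = U`. -/
theorem factor_of_dominates {g : V ⟶ U} (h : Dominates W g) (j : ℕ) : IsAlgFactor W U j V j := by
  obtain ⟨hle, η, hη, h1⟩ := h
  refine ⟨ops.push (Obj.lift g (𝟙 V)) V.V.fundCycle, ops.push (Obj.lift (𝟙 V) g) η, ⟨U.dim, V.dim,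
    ops.push_mem _ V.V.fundCycle_mem ?_, ops.push_mem _ hη ?_, by omega, by omega⟩, fun x hx => ?_⟩
  · rw [dim_prod]; omega
  · rw [dim_prod]; omega
  · have e1 : Obj.lift g (𝟙 V) ≫ snd U V = 𝟙 V := Obj.lift_snd _ _
    have e2 : Obj.lift g (𝟙 V) ≫ fst U V = g := Obj.lift_fst _ _
    have e3 : Obj.lift (𝟙 V) g ≫ snd V U = g := Obj.lift_snd _ _
    have e4 : Obj.lift (𝟙 V) g ≫ fst V U = 𝟙 V := Obj.lift_fst _ _
    rw [op_push, op_push, e1, e2, e3, e4, W.push_id, W.cl_fund, one_mul, W.map_id, W.push_mul,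
      ← W.cl_push, h1, one_mul]

theorem sum_of_factor {j l : ℕ} (hV : HasConjOperator W V l) (hF : IsAlgFactor W U j V l) :
    IsSumOfConjFactors W U j := by
  obtain ⟨α, β, hP, h⟩ := hF
  refine ⟨1, fun _ => V, fun _ => l, fun _ => α, fun _ => β, fun _ => hV, fun _ => hP,
    fun s t hst => (hst (Subsingleton.elim s t)).elim, fun x hx => ?_⟩
  rw [Fin.sum_univ_one, h x hx]

lemma corr_sum {ι : Type*} (S : Finset ι) (γ : ι → W.H (X.prod Y)) (x : W.H X) :
    W.corr (∑ s ∈ S, γ s) x = ∑ s ∈ S, W.corr (γ s) x := by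
  classical
  induction S using Finset.induction_on with
  | empty => rw [Finset.sum_empty, Finset.sum_empty, corr_zero, LinearMap.zero_apply]
  | insert a S ha ih => rw [Finset.sum_insert ha, Finset.sum_insert ha, corr_add,
      LinearMap.add_apply, ih]

/-- **A correspondence which is injective on the dual of a sum of direct factors.** -/
theorem sum_injective {j : ℕ} (hj : j ≤ 2 * U.dim) (h : IsSumOfConjFactors W U j) :
    SomeIn (spanCycles W (U.prod U) j)
      (fun γ => InjectiveOn (W.gr U (2 * U.dim - j)) (W.corr γ)) := by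
  obtain ⟨r, V, l, α, β, hV, hP, hort, hsum⟩ := h
  have mβ : ∀ s, ∀ x ∈ W.gr (V s) (l s), op W (β s) x ∈ W.gr U j := by
    intro s x hx
    obtain ⟨a, b, ha, hb, e1, e2⟩ := hP s
    exact op_mem hb hx e2
  have hone : ∀ s, ∀ x ∈ W.gr (V s) (l s), ∑ t, op W (β t) (op W (α t) (op W (β s) x)) =
      op W (β s) (op W (α s) (op W (β s) x)) := by
    intro s x hx
    rw [Finset.sum_eq_single s]
    · intro t _ hts
      rw [hort t s hts x hx, map_zero]
    · intro h; exact absurd (Finset.mem_univ s) h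
  have hβα : ∀ s, ∀ x ∈ W.gr (V s) (l s), op W (β s) (op W (α s) (op W (β s) x)) =
      op W (β s) x := fun s x hx => by
    rw [← hone s x hx, hsum _ (mβ s x hx)]
  choose γ hγ h1 h2 using fun s => factor_injective la' (hV s) (hP s) (hβα s) hj
  refine ⟨∑ s, γ s, Submodule.sum_mem _ fun s _ => hγ s, fun x hx h0 => ?_⟩
  rw [corr_sum] at h0
  have hz : ∀ s, W.corr (γ s) x = 0 := by
    intro s
    obtain ⟨y, hy, hxy⟩ := h1 s x hx
    have e1 : op W (α s) (∑ t, W.corr (γ t) x) = op W (α s) (op W (β s) y) := by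
      rw [map_sum, Finset.sum_eq_single s]
      · rw [hxy]
      · intro t _ hts
        obtain ⟨z, hz, hxz⟩ := h1 t x hx
        rw [hxz, hort s t hts.symm z hz]
      · intro h; exact absurd (Finset.mem_univ s) h
    rw [h0, map_zero] at e1
    rw [hxy, ← hβα s y hy, ← e1, map_zero]
  have hz' : ∀ s, op W (tsp (ops := ops) (α s)) (op W (tsp (ops := ops) (β s)) x) = 0 :=
    fun s => h2 s x hx (hz s)
  refine eq_zero_of_orth (X := U) (i := 2 * U.dim - j) (j := j) (by omega) hx fun y hy => ?_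
  rw [← hsum y hy, Finset.sum_mul, map_sum]
  refine Finset.sum_eq_zero fun s _ => ?_
  obtain ⟨a, b, ha, hb, e1, e2⟩ := hP s
  rw [tr_tsp hb, tr_tsp ha, hz' s, mul_zero, map_zero]

/-- **The Lefschetz standard conjecture in the degrees up to `i`.** -/
theorem upTo_of_sum {D : U.Cycles} (hD : U.IsCyc 1 D) (hHL : HardLefschetz W U D) {i : ℕ}
    (hi : i < U.dim) (h : ∀ j ≤ i, IsSumOfConjFactors W U j) : LefschetzUpTo W U D i :=
  ((upTo_tfae hD hHL hi).out 0 1).2 fun j hj => sum_injective (by omega) (h j hj)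

/-- **The Lefschetz standard conjecture for sums of direct factors.** -/
theorem lefschetzB_of_sum {D : U.Cycles} (hD : U.IsCyc 1 D) (hHL : HardLefschetz W U D)
    (h : ∀ j < U.dim, IsSumOfConjFactors W U j) : LefschetzB W U D := by
  have hB' : LefschetzB W U D ↔ ∀ c ≤ U.dim, SpanInjective W U c :=
    (lefschetzB_tfae hD hHL).out 0 2
  apply hB'.2
  intro c hc
  by_cases h0 : c = 0
  · subst h0
    refine ⟨W.cl _ (ops.push (diag U) U.V.fundCycle), ?_, ?_⟩
    · apply Submodule.subset_span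
      refine ⟨U.dim, by simp, _, ops.push_mem _ U.V.fundCycle_mem ?_, rfl⟩
      simp only [dim_prod]; omega
    · intro x _ hx
      rwa [W.cl_push, corr_diag, W.cl_fund, one_mul] at hx
  · obtain ⟨γ, hγ, h3⟩ := sum_injective (W := W) (U := U) (j := U.dim - c) (by omega)
      (h (U.dim - c) (by omega))
    refine ⟨γ, ?_, ?_⟩
    · rwa [show ((U.dim : ℤ) - (c : ℕ)) = ((U.dim - c : ℕ) : ℤ) by omega]
    · rwa [show 2 * U.dim - (U.dim - c) = U.dim + c by omega] at h3

end Pool.Agent.Helper9K9.DM
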